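import Pool.Agent.Q222.LV.Srch
import Pool.Agent.Q205.LV.Stm

/-! Project LV, job LV-CPY: from a primitive recursive set of names to a copy. -/

set_option autoImplicit false

namespace Pool.Agent.Q222.LV

open Pool.Agent.Q205.LV

theorem CPYproof : CPYStm := by
  classical
  intro D val c hD hc h1 h2
  have hcinj : Function.Injective c := by
    intro a b hab
    have := congrArg val hab
    rw [(h1 a).2, (h1 b).2] at this
    exact this
  have hinf : {a | D a}.Infinite := Set.infinite_of_injective_forall_mem hcinj fun k => (h1 k).1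
  have hnth : ∀ n, D (Nat.nth D n) := fun n => Nat.nth_mem_of_infinite hinf n
  have hcn : ∀ n, Nat.count D (Nat.nth D n) = n := fun n => Nat.count_nth_of_infinite hinf n
  have hnc : ∀ a, D a → Nat.nth D (Nat.count D a) = a := fun a ha => Nat.nth_count ha
  have hcv : ∀ a, D a → c (val a) = a := fun a ha =>
    h2 _ _ (h1 _).1 ha (h1 _).2
  -- count is primitive recursive
  have hcnt : Primrec fun a => Nat.count D a := by
    have hF : Primrec₂ fun (_ : ℕ) (k : ℕ) => if D k then 1 else 0 :=
      Primrec.ite (hD.comp Primrec.snd) (Primrec.const 1) (Primrec.const 0)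
    refine (pr_sum hF Primrec.id).of_eq ?_
    intro a
    rw [Nat.count_eq_card_filter_range, Finset.card_filter]
    rfl
  have hbd : ∀ n, Nat.nth D n < (∑ k ∈ Finset.range (n + 1), c k) + 1 := by
    intro n
    apply Nat.nth_lt_of_lt_count
    rw [Nat.count_eq_card_filter_range]
    have hsub : (Finset.range (n + 1)).image c ⊆
        (Finset.range ((∑ k ∈ Finset.range (n + 1), c k) + 1)).filter D := by
      intro x hx
      obtain ⟨k, hk, rfl⟩ := Finset.mem_image.1 hx
      rw [Finset.mem_filter, Finset.mem_range]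
      refine ⟨?_, (h1 k).1⟩
      have := Finset.single_le_sum (f := c) (fun i _ => Nat.zero_le _) hk
      omega
    have hcard := Finset.card_le_card hsub
    rw [Finset.card_image_of_injective _ hcinj, Finset.card_range] at hcard
    exact lt_of_lt_of_le (Nat.lt_succ_self n) hcard
  have hnthp : Primrec fun n => Nat.nth D n := by
    have hs : Primrec fun n => (∑ k ∈ Finset.range (n + 1), c k) + 1 :=
      Primrec.succ.comp (pr_sum (F := fun _ k => c k) (hc.comp Primrec.snd) Primrec.succ)
    have hR : PrimrecRel fun (n a : ℕ) => D a ∧ Nat.count D a = n :=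
      PrimrecPred.and (hD.comp Primrec.snd)
        (Primrec.eq.comp (hcnt.comp Primrec.snd) Primrec.fst)
    refine (pr_bf hR hs).of_eq ?_
    intro n
    refine bf_eq _ _ _ (hbd n) ⟨hnth n, hcn n⟩ ?_
    intro k hk hcon
    have := hnc k hcon.1
    rw [hcon.2] at this
    omega
  refine ⟨⟨fun k => Nat.count D (c k), fun n => val (Nat.nth D n), ?_, ?_⟩, ?_, ?_⟩
  · intro k
    simp only
    rw [hnc _ (h1 k).1, (h1 k).2]
  · intro n
    simp only
    rw [hcv _ (hnth n), hcn]
  · intro f F hF hfF
    refine (hcnt.comp (hF.comp hnthp)).of_eq ?_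
    intro n
    change Nat.count D (F (Nat.nth D n)) = Nat.count D (c (f (val (Nat.nth D n))))
    rw [← (hfF _ (hnth n)).2, hcv _ (hfF _ (hnth n)).1]
  · intro hs
    refine ⟨_, hs.comp hcnt, ?_⟩
    intro a ha
    change val (Nat.nth D (Nat.count D a)) = val a
    rw [hnc a ha]

end Pool.Agent.Q222.LV
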