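import Pool.Agent.Q205.LV.Stm

/-! Project LV, job LV-PR: primitive recursiveness of the bound and of the evaluation of terms. -/

set_option autoImplicit false

namespace Pool.Agent.Q222.LV

open Pool.Agent.Q205.LV

theorem pr_pow : Primrec₂ ((· ^ ·) : ℕ → ℕ → ℕ) := Primrec₂.unpaired'.1 Nat.Primrec.pow

theorem pr_Mb : Primrec₂ Mb := by
  have h : Primrec fun p : ℕ × ℕ => Mb p.1 p.2 := by
    unfold Mb
    have h4 : Primrec fun p : ℕ × ℕ => 4 ^ (p.1 + 1) :=
      pr_pow.comp (Primrec.const 4) (Primrec.succ.comp Primrec.fst)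
    exact Primrec.nat_add.comp
      (Primrec.nat_mul.comp (pr_pow.comp (Primrec.const 2) Primrec.snd)
        (Primrec.nat_add.comp Primrec.snd (Primrec.nat_mul.comp (Primrec.const 2) h4)))
      (Primrec.nat_mul.comp Primrec.snd h4)
  exact h

/-- One step of the computation of `Zb`. -/
def stp (s : ℕ × ℕ × ℕ × ℕ) : ℕ × ℕ × ℕ × ℕ :=
  (s.1 - 1, Mb (s.1 - 1) s.2.1, s.2.2.1 * (2 * s.2.1 + 3), s.2.2.1 * (2 * s.2.1 + 3) + s.2.2.2)

theorem pr_stp : Primrec stp := by
  unfold stp
  have h1 : Primrec fun s : ℕ × ℕ × ℕ × ℕ => s.1 - 1 := Primrec.nat_sub.comp Primrec.fst (Primrec.const 1)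
  have h2 : Primrec fun s : ℕ × ℕ × ℕ × ℕ => s.2.1 := Primrec.fst.comp Primrec.snd
  have h3 : Primrec fun s : ℕ × ℕ × ℕ × ℕ => s.2.2.1 := Primrec.fst.comp (Primrec.snd.comp Primrec.snd)
  have h4 : Primrec fun s : ℕ × ℕ × ℕ × ℕ => s.2.2.2 := Primrec.snd.comp (Primrec.snd.comp Primrec.snd)
  have h5 : Primrec fun s : ℕ × ℕ × ℕ × ℕ => s.2.2.1 * (2 * s.2.1 + 3) :=
    Primrec.nat_mul.comp h3 (Primrec.nat_add.comp (Primrec.nat_mul.comp (Primrec.const 2) h2)
      (Primrec.const 3))
  exact Primrec.pair h1 (Primrec.pair (pr_Mb.comp h1 h2) (Primrec.pair h5 (Primrec.nat_add.comp h5 h4)))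

theorem stp_it (r : ℕ) : ∀ d p q : ℕ,
    p * Zb r d + q = (stp^[r] (r, d, p, q)).2.2.1 * (stp^[r] (r, d, p, q)).2.1 +
      (stp^[r] (r, d, p, q)).2.2.2 := by
  induction r with
  | zero => intro d p q; simp [Zb]
  | succ r ih =>
    intro d p q
    rw [Function.iterate_succ_apply]
    have h := ih (Mb r d) (p * (2 * d + 3)) (p * (2 * d + 3) + q)
    have h2 : stp (r + 1, d, p, q) = (r, Mb r d, p * (2 * d + 3), p * (2 * d + 3) + q) := by
      simp [stp]
    rw [h2, ← h, Zb]
    ring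

theorem pr_Zb : ZPRStm := by
  have hs : Primrec fun p : ℕ × ℕ => stp^[p.1] (p.1, p.2, 1, 0) :=
    Primrec.nat_iterate (f := fun p : ℕ × ℕ => p.1)
      (g := fun p : ℕ × ℕ => ((p.1, p.2, 1, 0) : ℕ × ℕ × ℕ × ℕ)) (h := fun _ s => stp s)
      Primrec.fst (Primrec.pair Primrec.fst (Primrec.pair Primrec.snd (Primrec.const (1, 0))))
      (pr_stp.comp Primrec.snd)
  have h : Primrec fun p : ℕ × ℕ => Zb p.1 p.2 := by
    refine (Primrec.nat_add.comp (Primrec.nat_mul.comp
      (Primrec.fst.comp (Primrec.snd.comp (Primrec.snd.comp hs)))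
      (Primrec.fst.comp (Primrec.snd.comp hs)))
      (Primrec.snd.comp (Primrec.snd.comp (Primrec.snd.comp hs)))).of_eq ?_
    intro p
    have := stp_it p.1 p.2 1 0
    simp only [one_mul, add_zero] at this
    exact this.symm
  exact h

theorem pr_tC : Primrec tC :=
  Primrec.succ.comp (Primrec.nat_mul.comp (Primrec.const 4) Primrec.id)

theorem pr_tA : Primrec₂ tA := by
  have h : Primrec fun p : ℕ × ℕ => tA p.1 p.2 := Primrec.nat_add.comp
    (Primrec.nat_mul.comp (Primrec.const 4) (Primrec₂.natPair.comp Primrec.fst Primrec.snd))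
    (Primrec.const 2)
  exact h

theorem pr_tM : Primrec₂ tM := by
  have h : Primrec fun p : ℕ × ℕ => tM p.1 p.2 := Primrec.nat_add.comp
    (Primrec.nat_mul.comp (Primrec.const 4) (Primrec₂.natPair.comp Primrec.fst Primrec.snd))
    (Primrec.const 3)
  exact h

theorem pr_tP : Primrec₂ tP := by
  have h : Primrec fun p : ℕ × ℕ => tP p.1 p.2 := Primrec.nat_add.comp
    (Primrec.nat_mul.comp (Primrec.const 4) (Primrec₂.natPair.comp Primrec.fst Primrec.snd))
    (Primrec.const 4)
  exact h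

/-- The step of the strong recursion. -/
def evg (x : ℕ) (l : List ℕ) : Option ℕ :=
  if l.length = 0 then some x
  else if (l.length - 1) % 4 = 0 then some ((l.length - 1) / 4)
  else if (l.length - 1) % 4 = 1 then
    some (l.getD (Nat.unpair ((l.length - 1) / 4)).1 0 + l.getD (Nat.unpair ((l.length - 1) / 4)).2 0)
  else if (l.length - 1) % 4 = 2 then
    some (l.getD (Nat.unpair ((l.length - 1) / 4)).1 0 * l.getD (Nat.unpair ((l.length - 1) / 4)).2 0)
  else
    some (l.getD (Nat.unpair ((l.length - 1) / 4)).1 0 ^ l.getD (Nat.unpair ((l.length - 1) / 4)).2 0)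

theorem pr_evg : Primrec₂ evg := by
  have hl : Primrec fun p : ℕ × List ℕ => p.2.length := Primrec.list_length.comp Primrec.snd
  have hl1 : Primrec fun p : ℕ × List ℕ => p.2.length - 1 := Primrec.nat_sub.comp hl (Primrec.const 1)
  have hm : Primrec fun p : ℕ × List ℕ => (p.2.length - 1) % 4 :=
    Primrec.nat_mod.comp hl1 (Primrec.const 4)
  have hd : Primrec fun p : ℕ × List ℕ => (p.2.length - 1) / 4 :=
    Primrec.nat_div.comp hl1 (Primrec.const 4)
  have ha : Primrec fun p : ℕ × List ℕ => p.2.getD (Nat.unpair ((p.2.length - 1) / 4)).1 0 :=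
    (Primrec.list_getD 0).comp Primrec.snd (Primrec.fst.comp (Primrec.unpair.comp hd))
  have hb : Primrec fun p : ℕ × List ℕ => p.2.getD (Nat.unpair ((p.2.length - 1) / 4)).2 0 :=
    (Primrec.list_getD 0).comp Primrec.snd (Primrec.snd.comp (Primrec.unpair.comp hd))
  have h : Primrec fun p : ℕ × List ℕ => evg p.1 p.2 := by
    unfold evg
    refine Primrec.ite (Primrec.eq.comp hl (Primrec.const 0)) (Primrec.option_some.comp Primrec.fst) ?_
    refine Primrec.ite (Primrec.eq.comp hm (Primrec.const 0)) (Primrec.option_some.comp hd) ?_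
    refine Primrec.ite (Primrec.eq.comp hm (Primrec.const 1))
      (Primrec.option_some.comp (Primrec.nat_add.comp ha hb)) ?_
    refine Primrec.ite (Primrec.eq.comp hm (Primrec.const 2))
      (Primrec.option_some.comp (Primrec.nat_mul.comp ha hb)) ?_
    exact Primrec.option_some.comp (pr_pow.comp ha hb)
  exact h

theorem pr_ev : Primrec₂ ev := by
  refine Primrec.nat_strong_rec ev pr_evg ?_
  intro x c
  have hget : ∀ i, i < c → ((List.range c).map (ev x)).getD i 0 = ev x i := by
    intro i hi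
    rw [List.getD_eq_getElem?_getD, List.getElem?_map, List.getElem?_range hi]
    rfl
  unfold evg
  simp only [List.length_map, List.length_range]
  rcases c with _ | c
  · simp [ev]
  · have h1 := (unp c).1
    have h2 := (unp c).2
    rw [if_neg (by omega)]
    simp only [Nat.add_sub_cancel]
    rw [hget _ h1, hget _ h2, ev]
    split_ifs <;> rfl

theorem rv_ev : ∀ c n : ℕ, rv (n : ℝ) c = (ev n c : ℝ) := by
  intro c n
  induction c using Nat.strong_induction_on with
  | _ c ih =>
    rcases code_cases c with rfl | ⟨k, rfl⟩ | ⟨a, b, ha, hb, -, h⟩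
    · rw [ev_zero, rv_zero]
    · rw [ev_tC, rv_tC]
    · have h1 := ih a ha
      have h2 := ih b hb
      rcases h with rfl | rfl | rfl
      · rw [ev_tA, rv_tA, h1, h2]; push_cast; rfl
      · rw [ev_tM, rv_tM, h1, h2]; push_cast; rfl
      · rw [ev_tP, rv_tP, h1, h2, Real.rpow_natCast]; push_cast; rfl

theorem EVproof : EVStm := ⟨pr_ev, rv_ev, pr_tC, pr_tA, pr_tM, pr_tP⟩

end Pool.Agent.Q222.LV
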