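import Pool.Agent.Q222.LV.Srch
import Pool.Agent.Q205.LV.Stm

/-! Project LV, job LV-STR: the copy as a decidable set of names. -/

set_option autoImplicit false

namespace Pool.Agent.Q222.LV

open Pool.Agent.Q205.LV

/-- The terms agree at all positive integers. -/
def EQ (a b : ℕ) : Prop := ∀ n, 1 ≤ n → ev n a = ev n b

/-- The term is constant. -/
def Cst (u : ℕ) : Prop := EQ u (tC (ev 1 u))

theorem EQ.symm' {a b : ℕ} (h : EQ a b) : EQ b a := fun n hn => (h n hn).symm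
theorem EQ.trans' {a b c : ℕ} (h : EQ a b) (h2 : EQ b c) : EQ a c :=
  fun n hn => (h n hn).trans (h2 n hn)

theorem cst_iff (u : ℕ) : Cst u ↔ ∀ n, 1 ≤ n → ev n u = ev 1 u := by
  unfold Cst EQ
  simp only [ev_tC]

theorem EQ_iff (hT : TRMStm) (a b : ℕ) :
    EQ a b ↔ ∀ n < ZT (max a b) + 2, (¬ 1 ≤ n ∨ ev n a = ev n b) := by
  constructor
  · intro h n _
    by_cases hn : 1 ≤ n
    · exact Or.inr (h n hn)
    · exact Or.inl hn
  · intro h
    rcases hT (max a b) a b (le_max_left _ _) (le_max_right _ _) with h1 | h1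
    · exact h1
    · exfalso
      have h2 := h1 (Finset.Icc 1 (ZT (max a b) + 1)) (by
        intro n hn
        rw [Finset.mem_Icc] at hn
        refine ⟨hn.1, ?_⟩
        rcases h n (by omega) with h3 | h3
        · exact absurd hn.1 h3
        · exact h3)
      rw [Nat.card_Icc] at h2
      omega

theorem pr_ZT (hZ : ZPRStm) : Primrec ZT := by
  have h : Primrec fun c => Zb (3 * c + 3) (c + 1) :=
    hZ.comp (Primrec.nat_add.comp (Primrec.nat_mul.comp (Primrec.const 3) Primrec.id)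
      (Primrec.const 3)) Primrec.succ
  exact h

theorem pr_EQ (hZ : ZPRStm) (hE : EVStm) (hT : TRMStm) : PrimrecRel EQ := by
  have h : PrimrecPred fun p : ℕ × ℕ =>
      ∀ n < ZT (max p.1 p.2) + 2, (¬ 1 ≤ n ∨ ev n p.1 = ev n p.2) := by
    refine pr_all (R := fun (p : ℕ × ℕ) n => (¬ 1 ≤ n ∨ ev n p.1 = ev n p.2)) ?_ ?_
    · refine PrimrecPred.or (PrimrecPred.not (Primrec.nat_le.comp (Primrec.const 1) Primrec.snd)) ?_
      exact Primrec.eq.comp (hE.1.comp Primrec.snd (Primrec.fst.comp Primrec.fst))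
        (hE.1.comp Primrec.snd (Primrec.snd.comp Primrec.fst))
    · exact Primrec.nat_add.comp ((pr_ZT hZ).comp (Primrec.nat_max.comp Primrec.fst Primrec.snd))
        (Primrec.const 2)
  exact h.of_eq fun p => (EQ_iff hT p.1 p.2).symm

theorem pr_Cst (hZ : ZPRStm) (hE : EVStm) (hT : TRMStm) : PrimrecPred Cst :=
  (pr_EQ hZ hE hT).comp Primrec.id
    (hE.2.2.1.comp (hE.1.comp (Primrec.const 1) Primrec.id))

/-- The least code of an equal term. -/
noncomputable def nm (u : ℕ) : ℕ := bf (fun v => EQ v u) (u + 1)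

theorem nm_lt (u : ℕ) : nm u < u + 1 := (bf_eq_iff _ _).2 ⟨u, Nat.lt_succ_self u, fun _ _ => rfl⟩

theorem nm_EQ (u : ℕ) : EQ (nm u) u := bf_spec (fun v => EQ v u) (u + 1) (nm_lt u)

theorem nm_min (u t : ℕ) (h : t < nm u) : ¬ EQ t u := bf_not (fun v => EQ v u) (u + 1) t h

theorem pr_nm (hZ : ZPRStm) (hE : EVStm) (hT : TRMStm) : Primrec nm := by
  refine pr_bf (R := fun u v => EQ v u) ?_ Primrec.succ
  exact (pr_EQ hZ hE hT).comp Primrec.snd Primrec.fst

/-- Separation at `n` of the terms with codes at most `c`. -/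
def Sep (c n : ℕ) : Prop :=
  c + 1 ≤ n ∧ ∀ a < c + 1, ∀ b < c + 1, (¬ ev n a = ev n b ∨ EQ a b)

/-- The point of separation. -/
noncomputable def BB (c : ℕ) : ℕ := bf (Sep c) (c + 2 + (c + 1) ^ 2 * ZT c)

theorem pr_Sep (hZ : ZPRStm) (hE : EVStm) (hT : TRMStm) : PrimrecRel Sep := by
  have h2 : PrimrecRel fun (p : (ℕ × ℕ) × ℕ) (b : ℕ) =>
      (¬ ev p.1.2 p.2 = ev p.1.2 b ∨ EQ p.2 b) := by
    refine PrimrecPred.or (PrimrecPred.not (Primrec.eq.comp
      (hE.1.comp (Primrec.snd.comp (Primrec.fst.comp Primrec.fst)) (Primrec.snd.comp Primrec.fst))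
      (hE.1.comp (Primrec.snd.comp (Primrec.fst.comp Primrec.fst)) Primrec.snd))) ?_
    exact (pr_EQ hZ hE hT).comp (Primrec.snd.comp Primrec.fst) Primrec.snd
  have h1 : PrimrecRel fun (p : ℕ × ℕ) (a : ℕ) =>
      ∀ b < p.1 + 1, (¬ ev p.2 a = ev p.2 b ∨ EQ a b) := by
    exact pr_all (α := (ℕ × ℕ) × ℕ) h2 (Primrec.succ.comp (Primrec.fst.comp Primrec.fst))
  have h0 : PrimrecPred fun p : ℕ × ℕ =>
      ∀ a < p.1 + 1, ∀ b < p.1 + 1, (¬ ev p.2 a = ev p.2 b ∨ EQ a b) :=
    pr_all h1 (Primrec.succ.comp Primrec.fst)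
  exact PrimrecPred.and (Primrec.nat_le.comp (Primrec.succ.comp Primrec.fst) Primrec.snd) h0

theorem exists_sep (hT : TRMStm) (c : ℕ) : ∃ n < c + 2 + (c + 1) ^ 2 * ZT c, Sep c n := by
  classical
  by_contra hcon
  push Not at hcon
  -- every number of the interval is bad
  have hbad : ∀ n ∈ Finset.Icc (c + 1) (c + 1 + (c + 1) ^ 2 * ZT c),
      ∃ p ∈ (Finset.range (c + 1) ×ˢ Finset.range (c + 1)), ev n p.1 = ev n p.2 ∧ ¬ EQ p.1 p.2 := by
    intro n hn
    rw [Finset.mem_Icc] at hn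
    have h1 := hcon n (by omega)
    unfold Sep at h1
    push Not at h1
    obtain ⟨a, ha, b, hb, h2, h3⟩ := h1 hn.1
    exact ⟨(a, b), Finset.mem_product.2 ⟨Finset.mem_range.2 ha, Finset.mem_range.2 hb⟩, h2, h3⟩
  have hsub : Finset.Icc (c + 1) (c + 1 + (c + 1) ^ 2 * ZT c) ⊆
      (Finset.range (c + 1) ×ˢ Finset.range (c + 1)).biUnion fun p =>
        (Finset.Icc (c + 1) (c + 1 + (c + 1) ^ 2 * ZT c)).filter fun n =>
          ev n p.1 = ev n p.2 ∧ ¬ EQ p.1 p.2 := by
    intro n hn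
    obtain ⟨p, hp, h⟩ := hbad n hn
    rw [Finset.mem_biUnion]
    exact ⟨p, hp, Finset.mem_filter.2 ⟨hn, h⟩⟩
  have hcard := Finset.card_le_card hsub
  have hle : ((Finset.range (c + 1) ×ˢ Finset.range (c + 1)).biUnion fun p =>
        (Finset.Icc (c + 1) (c + 1 + (c + 1) ^ 2 * ZT c)).filter fun n =>
          ev n p.1 = ev n p.2 ∧ ¬ EQ p.1 p.2).card ≤
      (Finset.range (c + 1) ×ˢ Finset.range (c + 1)).card * ZT c := by
    refine Finset.card_biUnion_le_card_mul _ _ _ ?_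
    intro p hp
    rw [Finset.mem_product, Finset.mem_range, Finset.mem_range] at hp
    rcases hT c p.1 p.2 (by omega) (by omega) with h1 | h1
    · rw [Finset.filter_false_of_mem]
      · simp
      · rintro n - ⟨-, h⟩
        exact h h1
    · apply h1
      intro n hn
      rw [Finset.mem_filter, Finset.mem_Icc] at hn
      exact ⟨by omega, hn.2.1⟩
  rw [Finset.card_product, Finset.card_range] at hle
  rw [Nat.card_Icc] at hcard
  have h2 := hcard.trans hle
  have h3 : (c + 1) * (c + 1) * ZT c = (c + 1) ^ 2 * ZT c := by ring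
  rw [h3] at h2
  omega

theorem BB_sep (hT : TRMStm) (c : ℕ) : Sep c (BB c) :=
  bf_spec (Sep c) _ ((bf_eq_iff _ _).2 (exists_sep hT c))

theorem pr_BB (hZ : ZPRStm) (hE : EVStm) (hT : TRMStm) : Primrec BB := by
  refine pr_bf (pr_Sep hZ hE hT) ?_
  refine Primrec.nat_add.comp (Primrec.nat_add.comp Primrec.id (Primrec.const 2)) ?_
  refine (Primrec.nat_mul.comp (Primrec.nat_mul.comp Primrec.succ Primrec.succ) (pr_ZT hZ)).of_eq ?_
  intro c
  simp only [Nat.succ_eq_add_one]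
  ring

/-- The bound for the values. -/
noncomputable def HH (v : ℕ) : ℕ := v + ∑ t ∈ Finset.range (v + 1), ev (BB v) t

theorem pr_HH (hZ : ZPRStm) (hE : EVStm) (hT : TRMStm) : Primrec HH := by
  refine Primrec.nat_add.comp Primrec.id ?_
  refine pr_sum (F := fun v t => ev (BB v) t) ?_ Primrec.succ
  exact hE.1.comp ((pr_BB hZ hE hT).comp Primrec.fst) Primrec.snd

theorem HH_ge (v t : ℕ) (h : t < v + 1) : ev (BB v) t ≤ HH v := by
  unfold HH
  have := Finset.single_le_sum (f := fun t => ev (BB v) t) (fun i _ => Nat.zero_le _)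
    (Finset.mem_range.2 h)
  omega

section
variable (T : ℕ → ℕ)

/-- The valid names in the blocks. -/
def Vb (e t : ℕ) : Prop := ¬ T e ≤ t ∧ ¬ Cst t ∧ ∀ t' < t, ¬ EQ t' t

theorem pr_Vb (hZ : ZPRStm) (hE : EVStm) (hT : TRMStm) (hTp : PrimrecRel fun e t : ℕ => T e ≤ t) :
    PrimrecRel (Vb T) := by
  refine PrimrecPred.and (PrimrecPred.not hTp) ?_
  refine PrimrecPred.and (PrimrecPred.not ((pr_Cst hZ hE hT).comp Primrec.snd)) ?_
  refine pr_all (R := fun (p : ℕ × ℕ) t' => ¬ EQ t' p.2) ?_ Primrec.snd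
  exact PrimrecPred.not ((pr_EQ hZ hE hT).comp Primrec.snd (Primrec.snd.comp Primrec.fst))

/-- The value of `T e` if it is at most `k`. -/
noncomputable def Tk (e k : ℕ) : ℕ := bf (fun s => T e ≤ s) (k + 1)

theorem Tk_eq (e k : ℕ) (h : T e ≤ k) : Tk T e k = T e :=
  bf_eq _ _ _ (by omega) le_rfl (fun j hj => by omega)

theorem pr_Tk (hTp : PrimrecRel fun e t : ℕ => T e ≤ t) : Primrec₂ (Tk T) := by
  have h : Primrec fun p : ℕ × ℕ => bf (fun s => T p.1 ≤ s) (p.2 + 1) := by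
    refine pr_bf (R := fun (p : ℕ × ℕ) s => T p.1 ≤ s) ?_ (Primrec.succ.comp Primrec.snd)
    exact hTp.comp (Primrec.fst.comp Primrec.fst) Primrec.snd
  exact h

/-- `k` is the value of the term name `s`. -/
def Pk (k s : ℕ) : Prop := Vb T (Nat.unpair s).1 (Nat.unpair s).2 ∧ T (Nat.unpair s).1 ≤ k ∧
  ev (BB (Tk T (Nat.unpair s).1 k)) (Nat.unpair s).2 = k

theorem pr_Pk (hZ : ZPRStm) (hE : EVStm) (hT : TRMStm) (hTp : PrimrecRel fun e t : ℕ => T e ≤ t) :
    PrimrecRel (Pk T) := by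
  have h1 : Primrec fun p : ℕ × ℕ => (Nat.unpair p.2).1 :=
    Primrec.fst.comp (Primrec.unpair.comp Primrec.snd)
  have h2 : Primrec fun p : ℕ × ℕ => (Nat.unpair p.2).2 :=
    Primrec.snd.comp (Primrec.unpair.comp Primrec.snd)
  refine PrimrecPred.and ((pr_Vb T hZ hE hT hTp).comp h1 h2) ?_
  refine PrimrecPred.and (hTp.comp h1 Primrec.fst) ?_
  exact Primrec.eq.comp (hE.1.comp ((pr_BB hZ hE hT).comp ((pr_Tk T hTp).comp h1 Primrec.fst)) h2)
    Primrec.fst

/-- The set of names. -/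
def DD (a : ℕ) : Prop := (a % 2 = 0 ∧ ¬ ∃ s < (a / 2 + 1) * (a / 2 + 1), Pk T (a / 2) s) ∨
  (a % 2 = 1 ∧ Vb T (Nat.unpair (a / 2)).1 (Nat.unpair (a / 2)).2)

theorem pr_DD (hZ : ZPRStm) (hE : EVStm) (hT : TRMStm) (hTp : PrimrecRel fun e t : ℕ => T e ≤ t) :
    PrimrecPred (DD T) := by
  have hm : Primrec fun a : ℕ => a % 2 := Primrec.nat_mod.comp Primrec.id (Primrec.const 2)
  have hd : Primrec fun a : ℕ => a / 2 := Primrec.nat_div.comp Primrec.id (Primrec.const 2)
  refine PrimrecPred.or ?_ ?_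
  · refine PrimrecPred.and (Primrec.eq.comp hm (Primrec.const 0)) (PrimrecPred.not ?_)
    refine pr_ex (R := fun a s => Pk T (a / 2) s) ?_ ?_
    · exact (pr_Pk T hZ hE hT hTp).comp (hd.comp Primrec.fst) Primrec.snd
    · exact Primrec.nat_mul.comp (Primrec.succ.comp hd) (Primrec.succ.comp hd)
  · refine PrimrecPred.and (Primrec.eq.comp hm (Primrec.const 1)) ?_
    exact (pr_Vb T hZ hE hT hTp).comp (Primrec.fst.comp (Primrec.unpair.comp hd))
      (Primrec.snd.comp (Primrec.unpair.comp hd))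

/-- The value of a name. -/
noncomputable def vv (a : ℕ) : ℕ :=
  if a % 2 = 0 then a / 2 else ev (BB (T (Nat.unpair (a / 2)).1)) (Nat.unpair (a / 2)).2

/-- The search for a term name. -/
noncomputable def sk (k : ℕ) : ℕ := bf (Pk T k) ((k + 1) * (k + 1))

/-- The valid name of a number. -/
noncomputable def cc (k : ℕ) : ℕ :=
  if sk T k < (k + 1) * (k + 1) then 2 * sk T k + 1 else 2 * k

theorem pr_cc (hZ : ZPRStm) (hE : EVStm) (hT : TRMStm) (hTp : PrimrecRel fun e t : ℕ => T e ≤ t) :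
    Primrec (cc T) := by
  have hk : Primrec fun k : ℕ => (k + 1) * (k + 1) := Primrec.nat_mul.comp Primrec.succ Primrec.succ
  have hs : Primrec (sk T) := pr_bf (pr_Pk T hZ hE hT hTp) hk
  unfold cc
  exact Primrec.ite (Primrec.nat_lt.comp hs hk)
    (Primrec.succ.comp (Primrec.nat_mul.comp (Primrec.const 2) hs))
    (Primrec.nat_mul.comp (Primrec.const 2) Primrec.id)

open Classical in
/-- The name of a term in a block. -/
noncomputable def nam (e u : ℕ) : ℕ :=
  if Cst u then cc T (ev 1 u)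
  else if T e ≤ nm u then cc T (ev (BB (Tk T e (nm u))) u)
  else 2 * Nat.pair e (nm u) + 1

theorem pr_nam (hZ : ZPRStm) (hE : EVStm) (hT : TRMStm) (hTp : PrimrecRel fun e t : ℕ => T e ≤ t) :
    Primrec₂ (nam T) := by
  classical
  have hn : Primrec fun p : ℕ × ℕ => nm p.2 := (pr_nm hZ hE hT).comp Primrec.snd
  have hc := pr_cc T hZ hE hT hTp
  have h : Primrec fun p : ℕ × ℕ => nam T p.1 p.2 := by
    unfold nam
    refine Primrec.ite ((pr_Cst hZ hE hT).comp Primrec.snd)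
      (hc.comp (hE.1.comp (Primrec.const 1) Primrec.snd)) ?_
    refine Primrec.ite (hTp.comp Primrec.fst hn) ?_ ?_
    · exact hc.comp (hE.1.comp ((pr_BB hZ hE hT).comp ((pr_Tk T hTp).comp Primrec.fst hn))
        Primrec.snd)
    · exact Primrec.succ.comp (Primrec.nat_mul.comp (Primrec.const 2)
        (Primrec₂.natPair.comp Primrec.fst hn))
  exact h

variable (h0 : 0 < T 0) (hH : ∀ e, HH (T e) < T (e + 1))

include hH in
theorem T_lt (e : ℕ) : T e < T (e + 1) := by
  have h1 := hH e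
  have h2 : T e ≤ HH (T e) := by unfold HH; omega
  omega

include hH in
theorem T_mono : StrictMono T := strictMono_nat_of_lt_succ (T_lt T hH)

include h0 hH in
theorem T_gt (e : ℕ) : e < T e := by
  induction e with
  | zero => exact h0
  | succ e ih =>
    have := T_lt T hH e
    omega

theorem Vb_ge (hG : GEStm) {e t : ℕ} (h : Vb T e t) (n : ℕ) (hn : 1 ≤ n) : n ≤ ev n t := by
  rcases hG t with h1 | h1
  · exact absurd ((cst_iff t).2 h1) h.2.1
  · exact h1 n hn

/-- All numbers involved are at most the value. -/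
theorem Pk_iff (hG : GEStm) (hT : TRMStm) (k s : ℕ) :
    Pk T k s ↔ Vb T (Nat.unpair s).1 (Nat.unpair s).2 ∧
      ev (BB (T (Nat.unpair s).1)) (Nat.unpair s).2 = k := by
  unfold Pk
  constructor
  · rintro ⟨h1, h2, h3⟩
    rw [Tk_eq T _ _ h2] at h3
    exact ⟨h1, h3⟩
  · rintro ⟨h1, h3⟩
    have hB := (BB_sep hT (T (Nat.unpair s).1)).1
    have h4 := Vb_ge T hG h1 (BB (T (Nat.unpair s).1)) (by omega)
    rw [h3] at h4
    have h2 : T (Nat.unpair s).1 ≤ k := by omega
    refine ⟨h1, h2, ?_⟩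
    rw [Tk_eq T _ _ h2]
    exact h3

include h0 hH in
theorem Pk_bd (hG : GEStm) (hT : TRMStm) (k s : ℕ) (h : Pk T k s) : s < (k + 1) * (k + 1) := by
  have h1 := (Pk_iff T hG hT k s).1 h
  have hB := (BB_sep hT (T (Nat.unpair s).1)).1
  have h4 := Vb_ge T hG h1.1 (BB (T (Nat.unpair s).1)) (by omega)
  rw [h1.2] at h4
  have h5 := T_gt T h0 hH (Nat.unpair s).1
  have h6 : (Nat.unpair s).2 < T (Nat.unpair s).1 := not_le.1 h1.1.1
  have h7 := Nat.pair_lt_max_add_one_sq (Nat.unpair s).1 (Nat.unpair s).2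
  rw [Nat.pair_unpair] at h7
  have h8 : max (Nat.unpair s).1 (Nat.unpair s).2 + 1 ≤ k + 1 := by
    have : max (Nat.unpair s).1 (Nat.unpair s).2 ≤ k := max_le (by omega) (by omega)
    omega
  have h9 : (max (Nat.unpair s).1 (Nat.unpair s).2 + 1) ^ 2 ≤ (k + 1) ^ 2 :=
    Nat.pow_le_pow_left h8 2
  rw [pow_two (k + 1)] at h9
  omega

theorem cc_spec (hG : GEStm) (hT : TRMStm) (k : ℕ) : DD T (cc T k) ∧ vv T (cc T k) = k := by
  classical
  unfold cc
  by_cases h : sk T k < (k + 1) * (k + 1)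
  · rw [if_pos h]
    have h1 : Pk T k (sk T k) := bf_spec (Pk T k) _ h
    have h2 := (Pk_iff T hG hT k _).1 h1
    unfold DD vv
    have e1 : (2 * sk T k + 1) % 2 = 1 := by omega
    have e2 : (2 * sk T k + 1) / 2 = sk T k := by omega
    rw [e1, e2]
    refine ⟨Or.inr ⟨rfl, h2.1⟩, ?_⟩
    rw [if_neg (by omega)]
    exact h2.2
  · rw [if_neg h]
    have h1 : ¬ ∃ s < (k + 1) * (k + 1), Pk T k s := by
      intro hc
      exact h ((bf_eq_iff _ _).2 hc)
    unfold DD vv
    have e1 : (2 * k) % 2 = 0 := by omega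
    have e2 : (2 * k) / 2 = k := by omega
    rw [e1, e2]
    refine ⟨Or.inl ⟨rfl, h1⟩, ?_⟩
    rw [if_pos rfl]

include hH in
theorem val_lt (hG : GEStm) (hT : TRMStm) {e t e' t' : ℕ} (h : Vb T e t) (h' : Vb T e' t')
    (hlt : e < e') : ev (BB (T e)) t < ev (BB (T e')) t' := by
  have h1 : ev (BB (T e)) t ≤ HH (T e) := HH_ge _ _ (by have := not_le.1 h.1; omega)
  have h2 := hH e
  have h3 : T (e + 1) ≤ T e' := (T_mono T hH).monotone hlt
  have hB := (BB_sep hT (T e')).1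
  have h4 := Vb_ge T hG h' (BB (T e')) (by omega)
  omega

include hH in
theorem inj_blk (hG : GEStm) (hT : TRMStm) {e t e' t' : ℕ} (h : Vb T e t) (h' : Vb T e' t')
    (hv : ev (BB (T e)) t = ev (BB (T e')) t') : e = e' ∧ t = t' := by
  rcases lt_trichotomy e e' with hl | hl | hl
  · have := val_lt T hH hG hT h h' hl
    omega
  · subst hl
    refine ⟨rfl, ?_⟩
    have hB := BB_sep hT (T e)
    have h1 := not_le.1 h.1
    have h2 := not_le.1 h'.1
    rcases hB.2 t (by omega) t' (by omega) with h3 | h3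
    · exact absurd hv h3
    · rcases lt_trichotomy t t' with hl | hl | hl
      · exact absurd h3 (h'.2.2 t hl)
      · exact hl
      · exact absurd h3.symm' (h.2.2 t' hl)
  · have := val_lt T hH hG hT h' h hl
    omega

include h0 hH in
theorem vv_inj (hG : GEStm) (hT : TRMStm) (a b : ℕ) (ha : DD T a) (hb : DD T b)
    (hv : vv T a = vv T b) : a = b := by
  have key : ∀ a b : ℕ, a % 2 = 0 → DD T a → b % 2 = 1 → DD T b → vv T a = vv T b → False := by
    intro a b ha0 ha hb1 hb hv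
    rcases ha with ⟨-, ha⟩ | ⟨h, -⟩
    · rcases hb with ⟨h, -⟩ | ⟨-, hb⟩
      · omega
      · unfold vv at hv
        rw [if_pos ha0, if_neg (by omega)] at hv
        have h1 : Pk T (a / 2) (b / 2) := (Pk_iff T hG hT _ _).2 ⟨hb, hv.symm⟩
        exact ha ⟨_, Pk_bd T h0 hH hG hT _ _ h1, h1⟩
    · omega
  rcases Nat.mod_two_eq_zero_or_one a with ha0 | ha1 <;>
    rcases Nat.mod_two_eq_zero_or_one b with hb0 | hb1
  · unfold vv at hv
    rw [if_pos ha0, if_pos hb0] at hv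
    omega
  · exact (key a b ha0 ha hb1 hb hv).elim
  · exact (key b a hb0 hb ha1 ha hv.symm).elim
  · unfold vv at hv
    rw [if_neg (by omega), if_neg (by omega)] at hv
    rcases ha with ⟨h, -⟩ | ⟨-, ha⟩
    · omega
    · rcases hb with ⟨h, -⟩ | ⟨-, hb⟩
      · omega
      · obtain ⟨h1, h2⟩ := inj_blk T hH hG hT ha hb hv
        have h3 : a / 2 = b / 2 := by
          rw [← Nat.pair_unpair (a / 2), ← Nat.pair_unpair (b / 2), h1, h2]
        omega

include h0 hH in
theorem nam_spec (hG : GEStm) (hT : TRMStm) (e u : ℕ) :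
    DD T (nam T e u) ∧ vv T (nam T e u) = ev (BB (T e)) u := by
  classical
  have hB := (BB_sep hT (T e)).1
  unfold nam
  by_cases hC : Cst u
  · rw [if_pos hC]
    have h1 := cc_spec T hG hT (ev 1 u)
    refine ⟨h1.1, ?_⟩
    rw [h1.2]
    exact ((cst_iff u).1 hC _ (by omega)).symm
  · rw [if_neg hC]
    by_cases hk : T e ≤ nm u
    · rw [if_pos hk, Tk_eq T _ _ hk]
      exact cc_spec T hG hT _
    · rw [if_neg hk]
      have e1 : (2 * Nat.pair e (nm u) + 1) % 2 = 1 := by omega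
      have e2 : (2 * Nat.pair e (nm u) + 1) / 2 = Nat.pair e (nm u) := by omega
      unfold DD vv
      rw [e1, e2, Nat.unpair_pair]
      refine ⟨Or.inr ⟨rfl, hk, ?_, ?_⟩, ?_⟩
      · intro hc
        apply hC
        rw [cst_iff] at hc ⊢
        intro n hn
        have h1 := nm_EQ u
        rw [← h1 n hn, ← h1 1 le_rfl]
        exact hc n hn
      · intro t' ht' hc
        exact nm_min u t' ht' (hc.trans' (nm_EQ u))
      · rw [if_neg (by norm_num)]
        exact nm_EQ u (BB (T e)) (le_trans (Nat.succ_le_succ (Nat.zero_le _)) hB)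

end

theorem STRproof (hZ : ZPRStm) (hE : EVStm) (hG : GEStm) (hT : TRMStm) (hTS : TStm) : STRStm := by
  obtain ⟨T, hTp, h0, hH, hun⟩ := hTS HH (pr_HH hZ hE hT)
  refine ⟨T, fun e => BB (T e), DD T, vv T, cc T, nam T, pr_DD T hZ hE hT hTp,
    pr_cc T hZ hE hT hTp, pr_nam T hZ hE hT hTp, cc_spec T hG hT,
    vv_inj T h0 hH hG hT, nam_spec T h0 hH hG hT, ?_, ?_, hun⟩
  · intro a ha
    unfold vv
    rcases ha with ⟨h, -⟩ | ⟨h, -⟩
    · exact Or.inl ⟨h, by rw [if_pos h]⟩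
    · exact Or.inr ⟨h, by rw [if_neg (by omega)]⟩
  · intro e
    have := (BB_sep hT (T e)).1
    simp only
    omega

end Pool.Agent.Q222.LV
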