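import Mathlib

/-! Bounded search and bounded quantifiers for primitive recursive relations with parameters. -/

set_option autoImplicit false

namespace Pool.Agent.Q222.LV

/-- The least `k < n` with `p k`, and `n` if there is none. -/
noncomputable def bf (p : ℕ → Prop) (n : ℕ) : ℕ := by
  classical exact (List.range n).findIdx (fun k => decide (p k))

theorem bf_le (p : ℕ → Prop) (n : ℕ) : bf p n ≤ n := by
  unfold bf
  refine (List.findIdx_le_length).trans ?_
  rw [List.length_range]

theorem bf_not (p : ℕ → Prop) (n k : ℕ) (h : k < bf p n) : ¬ p k := by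
  classical
  have hn : k < n := lt_of_lt_of_le h (bf_le p n)
  have h2 := List.not_of_lt_findIdx (p := fun k => decide (p k)) (xs := List.range n) (i := k)
    (by unfold bf at h; convert h)
  simpa using h2

theorem bf_lt (p : ℕ → Prop) (n k : ℕ) (hk : k < n) (h : p k) : bf p n ≤ k := by
  by_contra hc
  exact bf_not p n k (by omega) h

theorem bf_spec (p : ℕ → Prop) (n : ℕ) (h : bf p n < n) : p (bf p n) := by
  classical
  have h1 : (List.range n).findIdx (fun k => decide (p k)) < (List.range n).length := by
    unfold bf at h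
    rw [List.length_range]
    convert h
  have h2 := List.findIdx_getElem (w := h1)
  rw [List.getElem_range] at h2
  have h3 := of_decide_eq_true h2
  unfold bf
  convert h3

/-- The value of the bounded search is determined by the least solution. -/
theorem bf_eq (p : ℕ → Prop) (n m : ℕ) (hm : m < n) (h1 : p m) (h2 : ∀ k < m, ¬ p k) :
    bf p n = m := by
  have h3 := bf_lt p n m hm h1
  by_contra hne
  have h4 : bf p n < m := by omega
  exact h2 _ h4 (bf_spec p n (by omega))

theorem bf_eq_iff (p : ℕ → Prop) (n : ℕ) : bf p n < n ↔ ∃ k < n, p k := by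
  constructor
  · intro h
    exact ⟨_, h, bf_spec p n h⟩
  · rintro ⟨k, hk, h⟩
    exact lt_of_le_of_lt (bf_lt p n k hk h) hk

section
variable {α : Type*} [Primcodable α]

theorem pr_bf {R : α → ℕ → Prop} {f : α → ℕ} (hR : PrimrecRel R) (hf : Primrec f) :
    Primrec fun a => bf (R a) (f a) := by
  classical
  have h : Primrec fun a => (List.range (f a)).findIdx (fun k => decide (R a k)) :=
    Primrec.list_findIdx (Primrec.list_range.comp hf) hR.decide
  refine h.of_eq ?_
  intro a
  unfold bf
  convert rfl

theorem pr_ex {R : α → ℕ → Prop} {f : α → ℕ} (hR : PrimrecRel R) (hf : Primrec f) :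
    PrimrecPred fun a => ∃ k < f a, R a k := by
  have h : PrimrecPred fun a => ∃ k ∈ List.range (f a), R a k :=
    (PrimrecRel.exists_mem_list hR.swap).comp (Primrec.list_range.comp hf) Primrec.id
  refine h.of_eq ?_
  intro a
  simp

theorem pr_all {R : α → ℕ → Prop} {f : α → ℕ} (hR : PrimrecRel R) (hf : Primrec f) :
    PrimrecPred fun a => ∀ k < f a, R a k := by
  have h : PrimrecPred fun a => ∀ k ∈ List.range (f a), R a k :=
    (PrimrecRel.forall_mem_list hR.swap).comp (Primrec.list_range.comp hf) Primrec.id
  refine h.of_eq ?_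
  intro a
  simp

/-- bounded sums -/
theorem pr_sum {F : α → ℕ → ℕ} {f : α → ℕ} (hF : Primrec₂ F) (hf : Primrec f) :
    Primrec fun a => ∑ k ∈ Finset.range (f a), F a k := by
  have h : Primrec₂ fun (a : α) (n : ℕ) =>
      (Nat.rec (motive := fun _ => ℕ) 0 (fun k s => s + F a k) n : ℕ) := by
    refine Primrec.nat_rec (f := fun _ : α => 0) (g := fun a (p : ℕ × ℕ) => p.2 + F a p.1)
      (Primrec.const 0) ?_
    exact Primrec.nat_add.comp (Primrec.snd.comp Primrec.snd)
      (hF.comp Primrec.fst (Primrec.fst.comp Primrec.snd))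
  refine (h.comp Primrec.id hf).of_eq ?_
  intro a
  simp only [id]
  induction f a with
  | zero => rfl
  | succ n ih => rw [Finset.sum_range_succ, ← ih]

end

end Pool.Agent.Q222.LV
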