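import Pool.Agent.Q205.LV.Stm

/-! Project LV, job LV-TRM: exponential terms as polynomials in a chain. -/

set_option autoImplicit false

namespace Pool.Agent.Q222.LV

open Pool.Agent.Q205.LV

theorem GEproof : GEStm := by
  intro c
  induction c using Nat.strong_induction_on with
  | _ c ih =>
    rcases code_cases c with rfl | ⟨k, rfl⟩ | ⟨a, b, ha, hb, -, h⟩
    · right; intro n hn; rw [ev_zero]
    · left; intro n hn; rw [ev_tC, ev_tC]
    · have h1 := ih a ha
      have h2 := ih b hb
      rcases h with rfl | rfl | rfl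
      · simp only [ev_tA]
        rcases h1 with h1 | h1
        · rcases h2 with h2 | h2
          · left; intro n hn; rw [h1 n hn, h2 n hn]
          · right; intro n hn; have := h2 n hn; omega
        · right; intro n hn; have := h1 n hn; omega
      · simp only [ev_tM]
        rcases h1 with h1 | h1
        · rcases h2 with h2 | h2
          · left; intro n hn; rw [h1 n hn, h2 n hn]
          · rcases Nat.eq_zero_or_pos (ev 1 a) with h0 | h0
            · left; intro n hn; rw [h1 n hn, h0, zero_mul, zero_mul]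
            · right; intro n hn; rw [h1 n hn]; have := h2 n hn; nlinarith
        · rcases h2 with h2 | h2
          · rcases Nat.eq_zero_or_pos (ev 1 b) with h0 | h0
            · left; intro n hn; rw [h2 n hn, h0, mul_zero, mul_zero]
            · right; intro n hn; rw [h2 n hn]; have := h1 n hn; nlinarith
          · right; intro n hn; have := h1 n hn; have := h2 n hn; nlinarith
      · simp only [ev_tP]
        rcases h1 with h1 | h1
        · rcases h2 with h2 | h2
          · left; intro n hn; rw [h1 n hn, h2 n hn]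
          · rcases Nat.lt_or_ge (ev 1 a) 2 with h0 | h0
            · left; intro n hn
              rw [h1 n hn]
              have e1 := h2 n hn
              have e2 := h2 1 le_rfl
              rcases Nat.lt_or_ge (ev 1 a) 1 with h3 | h3
              · have h4 : ev 1 a = 0 := by omega
                rw [h4, zero_pow (by omega), zero_pow (by omega)]
              · have h4 : ev 1 a = 1 := by omega
                rw [h4, one_pow, one_pow]
            · right; intro n hn
              rw [h1 n hn]
              have e1 := h2 n hn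
              have e3 : ev n b < 2 ^ ev n b := Nat.lt_two_pow_self
              have e4 : 2 ^ ev n b ≤ (ev 1 a) ^ ev n b := Nat.pow_le_pow_left h0 _
              omega
        · rcases h2 with h2 | h2
          · rcases Nat.eq_zero_or_pos (ev 1 b) with h0 | h0
            · left; intro n hn; rw [h2 n hn, h0, pow_zero, pow_zero]
            · right; intro n hn; rw [h2 n hn]; have := h1 n hn
              calc n ≤ ev n a := this
                _ = ev n a ^ 1 := (pow_one _).symm
                _ ≤ ev n a ^ ev 1 b := Nat.pow_le_pow_right (by omega) h0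
          · right; intro n hn; have e1 := h1 n hn; have e2 := h2 n hn
            calc n ≤ ev n a := e1
                _ = ev n a ^ 1 := (pow_one _).symm
                _ ≤ ev n a ^ ev n b := Nat.pow_le_pow_right (by omega) (by omega)

theorem rv_sgn (c : ℕ) : (∀ x : ℝ, 0 < x → rv x c = 0) ∨ (∀ x : ℝ, 0 < x → 0 < rv x c) := by
  induction c using Nat.strong_induction_on with
  | _ c ih =>
    rcases code_cases c with rfl | ⟨k, rfl⟩ | ⟨a, b, ha, hb, -, h⟩
    · right; intro x hx; rw [rv_zero]; exact hx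
    · rcases Nat.eq_zero_or_pos k with rfl | hk
      · left; intro x hx; rw [rv_tC]; simp
      · right; intro x hx; rw [rv_tC]; exact_mod_cast hk
    · have h1 := ih a ha
      have h2 := ih b hb
      rcases h with rfl | rfl | rfl
      · simp only [rv_tA]
        rcases h1 with h1 | h1
        · rcases h2 with h2 | h2
          · left; intro x hx; rw [h1 x hx, h2 x hx, add_zero]
          · right; intro x hx; rw [h1 x hx, zero_add]; exact h2 x hx
        · rcases h2 with h2 | h2
          · right; intro x hx; rw [h2 x hx, add_zero]; exact h1 x hx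
          · right; intro x hx; exact add_pos (h1 x hx) (h2 x hx)
      · simp only [rv_tM]
        rcases h1 with h1 | h1
        · left; intro x hx; rw [h1 x hx, zero_mul]
        · rcases h2 with h2 | h2
          · left; intro x hx; rw [h2 x hx, mul_zero]
          · right; intro x hx; exact mul_pos (h1 x hx) (h2 x hx)
      · simp only [rv_tP]
        rcases h1 with h1 | h1
        · rcases h2 with h2 | h2
          · right; intro x hx; rw [h1 x hx, h2 x hx, Real.rpow_zero]; exact one_pos
          · left; intro x hx; rw [h1 x hx, Real.zero_rpow (ne_of_gt (h2 x hx))]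
        · right; intro x hx; exact Real.rpow_pos_of_pos (h1 x hx) _

/-- `i` is the code of a power with positive base. -/
def Pw (i : ℕ) : Prop := ∃ a b, i = tP a b ∧ ∀ x : ℝ, 0 < x → 0 < rv x a

/-- The term is positive. -/
def Ps (i : ℕ) : Prop := ∀ x : ℝ, 0 < x → 0 < rv x i

open Classical in
/-- The chain. -/
noncomputable def yy (j : ℕ) (x : ℝ) : ℝ :=
  if j % 3 = 0 then (if Pw (j / 3) then rv x (j / 3) else 1)
  else if j % 3 = 1 then (if Ps (j / 3) then (rv x (j / 3))⁻¹ else 1)
  else (if Ps (j / 3) then Real.log (rv x (j / 3)) else 1)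

theorem yy0 {i : ℕ} (h : Pw i) : yy (3 * i) = fun x => rv x i := by
  funext x
  unfold yy
  rw [if_pos (by omega), show 3 * i / 3 = i by omega, if_pos h]

theorem yy0' {i : ℕ} (h : ¬ Pw i) : yy (3 * i) = fun _ => 1 := by
  funext x
  unfold yy
  rw [if_pos (by omega), show 3 * i / 3 = i by omega, if_neg h]

theorem yy1 {i : ℕ} (h : Ps i) : yy (3 * i + 1) = fun x => (rv x i)⁻¹ := by
  funext x
  unfold yy
  rw [if_neg (by omega), if_pos (by omega), show (3 * i + 1) / 3 = i by omega, if_pos h]

theorem yy1' {i : ℕ} (h : ¬ Ps i) : yy (3 * i + 1) = fun _ => 1 := by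
  funext x
  unfold yy
  rw [if_neg (by omega), if_pos (by omega), show (3 * i + 1) / 3 = i by omega, if_neg h]

theorem yy2 {i : ℕ} (h : Ps i) : yy (3 * i + 2) = fun x => Real.log (rv x i) := by
  funext x
  unfold yy
  rw [if_neg (by omega), if_neg (by omega), show (3 * i + 2) / 3 = i by omega, if_pos h]

theorem yy2' {i : ℕ} (h : ¬ Ps i) : yy (3 * i + 2) = fun _ => 1 := by
  funext x
  unfold yy
  rw [if_neg (by omega), if_neg (by omega), show (3 * i + 2) / 3 = i by omega, if_neg h]

/-- The condition for one element of a chain. -/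
def Cn (y : ℕ → ℝ → ℝ) (i : ℕ) : Prop :=
  AnalyticOnNhd ℝ (y i) (Set.Ioi 0) ∧ ∃ Q : ℝ → ℝ, Pol y i (4 ^ (i + 1)) Q ∧
    ((∀ x, 0 < x → 0 < y i x ∧ HasDerivAt (y i) (y i x * Q x) x) ∨
      (∀ x, 0 < x → HasDerivAt (y i) (Q x) x) ∨
      (∀ x, 0 < x → 0 < Q x ∧ y i x * Q x = 1))

theorem Chn_mono {y : ℕ → ℝ → ℝ} {r s : ℕ} (h : r ≤ s) (hs : Chn y s) : Chn y r :=
  fun i hi => hs i (lt_of_lt_of_le hi h)

theorem Chn_succ {y : ℕ → ℝ → ℝ} {r : ℕ} (h : Chn y r) (hr : Cn y r) : Chn y (r + 1) := by
  intro i hi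
  rcases Nat.lt_succ_iff_lt_or_eq.1 hi with h1 | rfl
  · exact h i h1
  · exact hr

theorem Cn_one (hA : ALGStm) {y : ℕ → ℝ → ℝ} {r : ℕ} (h : y r = fun _ => 1) : Cn y r := by
  obtain ⟨hmono, hup, hcongr, hconst, hid, hy, hadd, hmul, han⟩ := hA y
  refine ⟨by rw [h]; exact analyticOnNhd_const, fun _ => 0, hconst _ _ _, Or.inr (Or.inl ?_)⟩
  intro x _
  rw [h]
  exact hasDerivAt_const x (1 : ℝ)

theorem pw4 (n : ℕ) : n + 1 ≤ 4 ^ n := by
  induction n with
  | zero => norm_num
  | succ n ih => rw [pow_succ]; omega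

/-- (iii) Induction step. -/
theorem chain_step (hA : ALGStm) (hD : DERStm) (i : ℕ) (hC : Chn yy (3 * i))
    (hP : ∀ j < i, Pol yy (3 * j + 1) (j + 1) (fun x => rv x j)) :
    Chn yy (3 * i + 3) ∧ Pol yy (3 * i + 1) (i + 1) (fun x => rv x i) := by
  obtain ⟨hmono, hup, hcongr, hconst, hid, hy, hadd, hmul, han⟩ := hA yy
  have hup' : ∀ (r s d e : ℕ) (f : ℝ → ℝ), r ≤ s → d ≤ e → Pol yy r d f → Pol yy s e f :=
    fun r s d e f h1 h2 h3 => hup r s e f h1 (hmono r d e f h2 h3)
  have hpi := pw4 (3 * i)
  have hpow : 4 ^ (3 * i + 1) = 4 * 4 ^ (3 * i) := by rw [pow_succ, mul_comm]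
  -- step a
  have ha : Cn yy (3 * i) := by
    by_cases hw : Pw i
    · obtain ⟨a, b, hi, hpos⟩ := hw
      have hw : Pw i := ⟨a, b, hi, hpos⟩
      have hab : a < i ∧ b < i ∧ a + b + 1 < i := by
        have hh := Nat.add_le_pair a b
        unfold tP at hi
        omega
      have hPa := hP a hab.1
      have hPb := hP b hab.2.1
      have hCa : Chn yy (3 * a + 1) := Chn_mono (by omega) hC
      have hCb : Chn yy (3 * b + 1) := Chn_mono (by omega) hC
      obtain ⟨fa, hfa, hfa'⟩ := hD yy _ _ _ hCa hPa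
      obtain ⟨fb, hfb, hfb'⟩ := hD yy _ _ _ hCb hPb
      have hana : AnalyticOnNhd ℝ (fun x => rv x a) (Set.Ioi 0) := han _ _ _ hCa hPa
      have hanb : AnalyticOnNhd ℝ (fun x => rv x b) (Set.Ioi 0) := han _ _ _ hCb hPb
      have hsa : Ps a := hpos
      have e4a : 4 ^ (3 * a + 1 + 1) ≤ 4 ^ (3 * i) := Nat.pow_le_pow_right (by norm_num) (by omega)
      have e4b : 4 ^ (3 * b + 1 + 1) ≤ 4 ^ (3 * i) := Nat.pow_le_pow_right (by norm_num) (by omega)
      -- Q
      have hQ1 : Pol yy (3 * i) ((b + 1 + 4 ^ (3 * b + 1 + 1)) + 1)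
          (fun x => fb x * yy (3 * a + 2) x) := by
        refine hmul _ _ _ _ _ (hup _ _ _ _ (by omega) hfb) ?_
        exact hup (3 * a + 2 + 1) _ _ _ (by omega) (hy (3 * a + 2))
      have hQ2 : Pol yy (3 * i) ((b + 1) + ((a + 1 + 4 ^ (3 * a + 1 + 1)) + 1))
          (fun x => rv x b * (fa x * yy (3 * a + 1) x)) := by
        refine hmul _ _ _ _ _ (hup _ _ _ _ (by omega) hPb) ?_
        refine hmul _ _ _ _ _ (hup _ _ _ _ (by omega) hfa) ?_
        exact hup (3 * a + 1 + 1) _ _ _ (by omega) (hy (3 * a + 1))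
      have hQ : Pol yy (3 * i) (4 ^ (3 * i + 1))
          (fun x => fb x * yy (3 * a + 2) x + rv x b * (fa x * yy (3 * a + 1) x)) := by
        refine hadd _ _ _ _ (hmono _ _ _ _ ?_ hQ1) (hmono _ _ _ _ ?_ hQ2)
        · omega
        · omega
      refine ⟨?_, _, hQ, Or.inl ?_⟩
      · rw [yy0 hw]
        have h1 : AnalyticOnNhd ℝ (fun x => Real.exp (Real.log (rv x a) * rv x b)) (Set.Ioi 0) := by
          intro x hx
          exact (((hana x hx).log (hpos x hx)).mul (hanb x hx)).rexp'
        refine h1.congr isOpen_Ioi ?_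
        intro x hx
        simp only
        rw [hi, rv_tP, Real.rpow_def_of_pos (hpos x hx)]
      · intro x hx
        rw [yy0 hw, yy1 hsa, yy2 hsa]
        have hpa := hpos x hx
        have e1 : rv x i = rv x a ^ rv x b := by rw [hi, rv_tP]
        refine ⟨by simp only; rw [e1]; exact Real.rpow_pos_of_pos hpa _, ?_⟩
        have h1 := (hfa' x hx).rpow (hfb' x hx) hpa
        have h2 : (fun x => rv x i) = fun x => rv x a ^ rv x b := by
          funext x; rw [hi, rv_tP]
        rw [h2]
        convert h1 using 1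
        simp only
        rw [Real.rpow_sub_one (ne_of_gt hpa)]
        field_simp
        ring
    · exact Cn_one hA (yy0' hw)
  have hC1 : Chn yy (3 * i + 1) := Chn_succ hC ha
  -- step b
  have hb : Pol yy (3 * i + 1) (i + 1) (fun x => rv x i) := by
    rcases code_cases i with hi | ⟨k, hi⟩ | ⟨a, b, h1, h2, h3, hi⟩
    · have h1 : (fun x : ℝ => rv x i) = fun x => x := by funext x; rw [hi, rv_zero]
      rw [h1]
      exact hmono _ _ _ _ (by omega) (hid _)
    · have h1 : (fun x : ℝ => rv x i) = fun _ => (k : ℝ) := by funext x; rw [hi, rv_tC]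
      rw [h1]
      exact hconst _ _ _
    · have hPa := hP a h1
      have hPb := hP b h2
      rcases hi with hi | hi | hi
      · have e : (fun x : ℝ => rv x i) = fun x => rv x a + rv x b := by funext x; rw [hi, rv_tA]
        rw [e]
        exact hadd _ _ _ _ (hup' _ _ _ _ _ (by omega) (by omega) hPa)
          (hup' _ _ _ _ _ (by omega) (by omega) hPb)
      · have e : (fun x : ℝ => rv x i) = fun x => rv x a * rv x b := by funext x; rw [hi, rv_tM]
        rw [e]
        exact hmono _ _ _ _ (by omega) (hmul _ _ _ _ _ (hup _ (3 * i + 1) _ _ (by omega) hPa)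
          (hup _ _ _ _ (by omega) hPb))
      · rcases rv_sgn a with hz | hpos
        · rcases rv_sgn b with hzb | hposb
          · refine hcongr _ _ (fun _ => 1) _ ?_ (hconst _ _ _)
            intro x hx
            rw [hi, rv_tP, hz x hx, hzb x hx, Real.rpow_zero]
          · refine hcongr _ _ (fun _ => 0) _ ?_ (hconst _ _ _)
            intro x hx
            rw [hi, rv_tP, hz x hx, Real.zero_rpow (ne_of_gt (hposb x hx))]
        · have hw : Pw i := ⟨a, b, hi, hpos⟩
          have h4 := hy (3 * i)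
          rw [yy0 hw] at h4
          exact hmono _ _ _ _ (by omega) h4
  have hani : AnalyticOnNhd ℝ (fun x => rv x i) (Set.Ioi 0) := han _ _ _ hC1 hb
  -- step c
  have hpow2 : 4 ^ (3 * i + 1 + 1) = 16 * 4 ^ (3 * i) := by rw [pow_succ, pow_succ]; ring
  have hpow3 : 4 ^ (3 * i + 2 + 1) = 64 * 4 ^ (3 * i) := by rw [pow_succ, pow_succ, pow_succ]; ring
  have hc : Cn yy (3 * i + 1) := by
    by_cases hs : Ps i
    · refine ⟨?_, fun x => rv x i, hmono _ _ _ _ (by omega) hb, Or.inr (Or.inr ?_)⟩
      · rw [yy1 hs]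
        intro x hx
        exact (hani x hx).fun_inv (ne_of_gt (hs x hx))
      · intro x hx
        rw [yy1 hs]
        exact ⟨hs x hx, inv_mul_cancel₀ (ne_of_gt (hs x hx))⟩
    · exact Cn_one hA (yy1' hs)
  have hC2 : Chn yy (3 * i + 2) := Chn_succ hC1 hc
  -- step d
  have hd : Cn yy (3 * i + 2) := by
    by_cases hs : Ps i
    · obtain ⟨fi, hfi, hfi'⟩ := hD yy _ _ _ hC1 hb
      have hQ : Pol yy (3 * i + 2) ((i + 1 + 4 ^ (3 * i + 1 + 1)) + 1)
          (fun x => fi x * yy (3 * i + 1) x) :=
        hmul _ _ _ _ _ (hup _ _ _ _ (by omega) hfi) (hy (3 * i + 1))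
      refine ⟨?_, _, hmono _ _ _ _ (by omega) hQ, Or.inr (Or.inl ?_)⟩
      · rw [yy2 hs]
        intro x hx
        exact (hani x hx).log (hs x hx)
      · intro x hx
        rw [yy2 hs, yy1 hs]
        have h1 := (hfi' x hx).log (ne_of_gt (hs x hx))
        change HasDerivAt (fun x => Real.log (rv x i)) (fi x * (rv x i)⁻¹) x
        rw [← div_eq_mul_inv]
        exact h1
    · exact Cn_one hA (yy2' hs)
  exact ⟨Chn_succ hC2 hd, hb⟩

theorem chain_all (hA : ALGStm) (hD : DERStm) (i : ℕ) : Chn yy (3 * i) ∧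
    ∀ j < i, Pol yy (3 * j + 1) (j + 1) (fun x => rv x j) := by
  induction i with
  | zero => exact ⟨fun i hi => by omega, fun j hj => by omega⟩
  | succ i ih =>
    have h := chain_step hA hD i ih.1 ih.2
    refine ⟨h.1, ?_⟩
    intro j hj
    rcases Nat.lt_succ_iff_lt_or_eq.1 hj with h1 | rfl
    · exact ih.2 j h1
    · exact h.2

theorem TRMproof (hA : ALGStm) (hD : DERStm) (hZB : ZBStm) (hE : EVStm) : TRMStm := by
  intro c a b hac hbc
  obtain ⟨hC, hP⟩ := chain_all hA hD (c + 1)
  obtain ⟨hmono, hup, hcongr, hconst, hid, hy, hadd, hmul, han⟩ := hA yy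
  have hPa : Pol yy (3 * (c + 1)) (c + 1) (fun x => rv x a) :=
    hup _ _ _ _ (by omega) (hmono _ _ _ _ (by omega) (hP a (by omega)))
  have hPb : Pol yy (3 * (c + 1)) (0 + (c + 1)) (fun x => (-1) * rv x b) :=
    hmul _ _ _ _ _ (hconst _ _ _) (hup _ _ _ _ (by omega)
      (hmono _ _ _ _ (by omega) (hP b (by omega))))
  rw [Nat.zero_add] at hPb
  have hf := hadd _ _ _ _ hPa hPb
  rcases hZB yy _ _ _ hC hf with h | h
  · left
    intro n hn
    have h1 := h (n : ℝ) (by exact_mod_cast hn)
    rw [hE.2.1, hE.2.1] at h1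
    have h2 : (ev n a : ℝ) = (ev n b : ℝ) := by linarith
    exact_mod_cast h2
  · right
    intro S hS
    have h1 := h (S.image (fun n : ℕ => (n : ℝ))) (by
      intro x hx
      obtain ⟨n, hn, rfl⟩ := Finset.mem_image.1 hx
      obtain ⟨h2, h3⟩ := hS n hn
      refine ⟨by exact_mod_cast h2, ?_⟩
      simp only
      rw [hE.2.1, hE.2.1, h3]
      ring)
    rw [Finset.card_image_of_injective _ Nat.cast_injective] at h1
    exact h1

end Pool.Agent.Q222.LV
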