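import Pool.Agent.Q222.LV.Srch
import Pool.Agent.Q205.LV.Stm

/-! Project LV, job LV-T: fast growing functions with a primitive recursive graph. -/

set_option autoImplicit false

namespace Pool.Agent.Q222.LV

open Pool.Agent.Q205.LV

open Nat.Partrec (Code)
open Nat.Partrec.Code (evaln)

theorem exists_ackcode : ∃ c : Code, ∀ n, ∃ t, ∃ x, x ∈ evaln t c n ∧ x = ack n n := by
  have h : Computable fun n => ack n n := computable₂_ack.comp Computable.id Computable.id
  have h2 : Nat.Partrec fun n => (Part.some (ack n n) : Part ℕ) := Partrec.nat_iff.1 h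
  obtain ⟨c, hc⟩ := Nat.Partrec.Code.exists_code.1 h2
  refine ⟨c, fun n => ?_⟩
  have h3 : ack n n ∈ c.eval n := by
    rw [hc]; exact Part.mem_some _
  obtain ⟨t, ht⟩ := Nat.Partrec.Code.evaln_complete.1 h3
  exact ⟨t, _, ht, rfl⟩

/-- An unbounded function with a primitive recursive graph. -/
theorem exists_T0 : ∃ T : ℕ → ℕ, (PrimrecRel fun e t : ℕ => T e ≤ t) ∧
    ∀ g : ℕ → ℕ, Primrec g → ∃ e, g e < T e := by
  classical
  obtain ⟨c, hc⟩ := exists_ackcode
  have hex : ∀ e, ∃ t, (evaln t c e).isSome := by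
    intro e
    obtain ⟨t, x, hx, -⟩ := hc e
    exact ⟨t, by rw [Option.mem_def.1 hx]; rfl⟩
  have hval : ∀ t e x, x ∈ evaln t c e → x = ack e e := by
    intro t e x hx
    obtain ⟨t', x', hx', rfl⟩ := hc e
    have h1 := Nat.Partrec.Code.evaln_sound hx
    have h2 := Nat.Partrec.Code.evaln_sound hx'
    exact Part.mem_unique h1 h2
  have hle : ∀ e t, Nat.find (hex e) ≤ t ↔ (evaln t c e).isSome := by
    intro e t
    constructor
    · intro h
      obtain ⟨x, hx⟩ := Option.isSome_iff_exists.1 (Nat.find_spec (hex e))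
      have := Nat.Partrec.Code.evaln_mono h (Option.mem_def.2 hx)
      rw [Option.mem_def.1 this]
      rfl
    · intro h
      exact Nat.find_le h
  refine ⟨fun e => Nat.find (hex e), ?_, ?_⟩
  · have h1 : Primrec fun p : ℕ × ℕ => (evaln p.2 c p.1).isSome :=
      Primrec.option_isSome.comp (Nat.Partrec.Code.primrec_evaln.comp
        (Primrec.pair (Primrec.pair Primrec.snd (Primrec.const c)) Primrec.fst))
    have h2 : PrimrecPred fun p : ℕ × ℕ => (evaln p.2 c p.1).isSome = true :=
      Primrec.eq.comp h1 (Primrec.const true)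
    exact h2.of_eq fun p => (hle p.1 p.2).symm
  · intro g hg
    by_contra hcon
    push Not at hcon
    apply not_primrec_ack_self
    have h1 : Primrec fun e => (evaln (g e) c e).getD 0 :=
      Primrec.option_getD.comp (Nat.Partrec.Code.primrec_evaln.comp
        (Primrec.pair (Primrec.pair hg (Primrec.const c)) Primrec.id)) (Primrec.const 0)
    refine h1.of_eq ?_
    intro e
    have h2 := (hle e (g e)).1 (hcon e)
    obtain ⟨x, hx⟩ := Option.isSome_iff_exists.1 h2
    rw [hx]
    exact hval _ _ _ (Option.mem_def.2 hx)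

section
variable (H T0 : ℕ → ℕ)

/-- The function of the job. -/
def Tf : ℕ → ℕ
  | 0 => T0 0 + 1
  | e + 1 => max (Tf e + H (Tf e) + 1) (T0 (e + 1))

/-- `T e + 1` if `T e ≤ t`, and `0` otherwise. -/
noncomputable def tau (t : ℕ) : ℕ → ℕ
  | 0 => if T0 0 + 1 ≤ t then T0 0 + 2 else 0
  | e + 1 => if tau t e = 0 then 0 else
      if max ((tau t e - 1) + H (tau t e - 1) + 1) (bf (fun s => T0 (e + 1) ≤ s) (t + 1)) ≤ t then
        max ((tau t e - 1) + H (tau t e - 1) + 1) (bf (fun s => T0 (e + 1) ≤ s) (t + 1)) + 1 else 0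

theorem tau_eq (t e : ℕ) : tau H T0 t e = if Tf H T0 e ≤ t then Tf H T0 e + 1 else 0 := by
  induction e with
  | zero => simp only [tau, Tf] <;> rfl
  | succ e ih =>
    have hw1 : T0 (e + 1) ≤ t → bf (fun s => T0 (e + 1) ≤ s) (t + 1) = T0 (e + 1) := by
      intro h
      exact bf_eq _ _ _ (by omega) le_rfl (fun k hk => by omega)
    have hw2 : ¬ T0 (e + 1) ≤ t → t < bf (fun s => T0 (e + 1) ≤ s) (t + 1) := by
      intro h
      by_contra hc
      have h1 := bf_spec (fun s => T0 (e + 1) ≤ s) (t + 1) (by omega)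
      omega
    rw [tau, ih]
    by_cases h : Tf H T0 e ≤ t
    · rw [if_pos h, if_neg (by omega), Nat.add_sub_cancel]
      by_cases h2 : T0 (e + 1) ≤ t
      · rw [hw1 h2]
        rfl
      · have h3 := hw2 h2
        rw [if_neg (by omega), if_neg]
        rw [Tf]
        omega
    · rw [if_neg h, if_pos rfl, if_neg]
      rw [Tf]
      omega

theorem pr_tau (hH : Primrec H) (hT : PrimrecRel fun e t : ℕ => T0 e ≤ t) :
    Primrec₂ (tau H T0) := by
  have hbf : Primrec fun p : ℕ × (ℕ × ℕ) => bf (fun s => T0 (p.2.1 + 1) ≤ s) (p.1 + 1) := by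
    refine pr_bf (R := fun (p : ℕ × (ℕ × ℕ)) s => T0 (p.2.1 + 1) ≤ s) ?_
      (Primrec.succ.comp Primrec.fst)
    exact hT.comp (Primrec.succ.comp (Primrec.fst.comp (Primrec.snd.comp Primrec.fst))) Primrec.snd
  have hm : Primrec fun p : ℕ × (ℕ × ℕ) =>
      max ((p.2.2 - 1) + H (p.2.2 - 1) + 1) (bf (fun s => T0 (p.2.1 + 1) ≤ s) (p.1 + 1)) := by
    have h1 : Primrec fun p : ℕ × (ℕ × ℕ) => p.2.2 - 1 :=
      Primrec.nat_sub.comp (Primrec.snd.comp Primrec.snd) (Primrec.const 1)
    exact Primrec.nat_max.comp (Primrec.succ.comp (Primrec.nat_add.comp h1 (hH.comp h1))) hbf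
  have h : Primrec₂ fun (t : ℕ) (e : ℕ) =>
      (Nat.rec (motive := fun _ => ℕ) (if T0 0 + 1 ≤ t then T0 0 + 2 else 0)
        (fun e s => if s = 0 then 0 else
          if max ((s - 1) + H (s - 1) + 1) (bf (fun s => T0 (e + 1) ≤ s) (t + 1)) ≤ t then
            max ((s - 1) + H (s - 1) + 1) (bf (fun s => T0 (e + 1) ≤ s) (t + 1)) + 1 else 0)
        e : ℕ) := by
    refine Primrec.nat_rec (f := fun t => if T0 0 + 1 ≤ t then T0 0 + 2 else 0)
      (g := fun t (p : ℕ × ℕ) => if p.2 = 0 then 0 else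
          if max ((p.2 - 1) + H (p.2 - 1) + 1) (bf (fun s => T0 (p.1 + 1) ≤ s) (t + 1)) ≤ t then
            max ((p.2 - 1) + H (p.2 - 1) + 1) (bf (fun s => T0 (p.1 + 1) ≤ s) (t + 1)) + 1 else 0)
      ?_ ?_
    · exact Primrec.ite (Primrec.nat_le.comp (Primrec.const _) Primrec.id) (Primrec.const _)
        (Primrec.const _)
    · refine Primrec.ite (Primrec.eq.comp (Primrec.snd.comp Primrec.snd) (Primrec.const 0))
        (Primrec.const 0) ?_
      exact Primrec.ite (Primrec.nat_le.comp hm Primrec.fst) (Primrec.succ.comp hm) (Primrec.const 0)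
  refine h.of_eq ?_
  intro t e
  induction e with
  | zero => rfl
  | succ e ih => simp only [tau]; rw [← ih]

end

theorem Tproof : TStm := by
  intro H hH
  obtain ⟨T0, hT0, hun⟩ := exists_T0
  have hge : ∀ e, T0 e ≤ Tf H T0 e := by
    intro e
    rcases e with _ | e
    · simp only [Tf]; omega
    · simp only [Tf]; exact le_max_right _ _
  refine ⟨Tf H T0, ?_, by simp only [Tf]; omega, ?_, ?_⟩
  · have h := pr_tau H T0 hH hT0
    have h2 : PrimrecPred fun p : ℕ × ℕ => ¬ tau H T0 p.2 p.1 = 0 :=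
      (Primrec.eq.comp (h.comp Primrec.snd Primrec.fst) (Primrec.const 0)).not
    refine h2.of_eq ?_
    intro p
    rw [tau_eq]
    split_ifs with hc
    · simp [hc]
    · simp [hc]
  · intro e
    rw [Tf]
    omega
  · intro g hg
    obtain ⟨e, he⟩ := hun g hg
    exact ⟨e, lt_of_lt_of_le he (hge e)⟩

end Pool.Agent.Q222.LV
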